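import Mathlib

set_option autoImplicit false

/-!
The definitions used in the statement: von Neumann algebras `M` of operators on a Hilbert space `H`
with a trace vector `ξ` (a unit vector whose vector state `x ↦ ⟪ξ, x ξ⟫` is a faithful trace on `M`;
its 2-norm is `‖x ξ‖ = τ(x* x)^(1/2)`), property Gamma, McDuff factors, isomorphism of ultrapowers,
the von Neumann algebra of a group, and the two groups.
-/

namespace MPc72427

open Filter Topology
open scoped InnerProductSpace

section General

universe u v w w'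

variable {H : Type u} [NormedAddCommGroup H] [InnerProductSpace ℂ H] [CompleteSpace H]
variable {K : Type v} [NormedAddCommGroup K] [InnerProductSpace ℂ K] [CompleteSpace K]
variable {I : Type w} {J : Type w'}

/-- `M` is a II_1 factor: it is a von Neumann algebra (stable under the star operation and equal to
its bicommutant), the vector state of `ξ` is a faithful (normal) tracial state, the centre consists
of the scalars, and `M` is infinite dimensional. -/
def IsII1Factor (M : Set (H →L[ℂ] H)) (ξ : H) : Prop :=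
  ((∀ x ∈ M, star x ∈ M) ∧ Set.centralizer (Set.centralizer M) = M) ∧
  (‖ξ‖ = 1 ∧ (∀ x ∈ M, ∀ y ∈ M, ⟪ξ, (x * y) ξ⟫_ℂ = ⟪ξ, (y * x) ξ⟫_ℂ) ∧ ∀ x ∈ M, x ξ = 0 → x = 0) ∧
  (∀ z ∈ M, (∀ x ∈ M, z * x = x * z) → ∃ c : ℂ, z = c • (1 : H →L[ℂ] H)) ∧
  ¬ ∃ F : Set (H →L[ℂ] H), F.Finite ∧ M ⊆ Submodule.span ℂ F

/-- Property Gamma. -/
def HasGamma (M : Set (H →L[ℂ] H)) (ξ : H) : Prop :=
  ∀ F ⊆ M, F.Finite → ∀ ε : ℝ, 0 < ε → ∃ w ∈ M, star w * w = 1 ∧ w * star w = 1 ∧
    ⟪ξ, w ξ⟫_ℂ = 0 ∧ ∀ x ∈ F, ‖(w * x - x * w) ξ‖ < ε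

/-- `M` is McDuff, `M ≅ M ⊗ R` with `R` the hyperfinite II_1 factor: `M` is generated, as a von
Neumann algebra, by two commuting subalgebras, one the image of an injective unital star homomorphism
`θ : M → M`, the other generated by an infinite sequence of commuting copies of the algebra of 2 x 2
matrices, each generated by two anticommuting self-adjoint unitaries `u n`, `v n` (in a II_1 factor
such a sequence generates the hyperfinite II_1 factor, and two commuting subfactors generate their
tensor product). -/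
def IsMcDuff (M : Set (H →L[ℂ] H)) : Prop :=
  ∃ (θ : (H →L[ℂ] H) → (H →L[ℂ] H)) (u v : ℕ → (H →L[ℂ] H)),
    (θ 1 = 1 ∧ ∀ x ∈ M, θ x ∈ M ∧ θ (star x) = star (θ x) ∧ (∀ c : ℂ, θ (c • x) = c • θ x) ∧
      ∀ y ∈ M, θ (x + y) = θ x + θ y ∧ θ (x * y) = θ x * θ y ∧ (θ x = θ y → x = y)) ∧
    (∀ n, u n ∈ M ∧ v n ∈ M ∧ star (u n) = u n ∧ u n * u n = 1 ∧ star (v n) = v n ∧
      v n * v n = 1 ∧ u n * v n = - (v n * u n)) ∧
    (∀ m n, m ≠ n → u m * u n = u n * u m ∧ u m * v n = v n * u m ∧ v m * v n = v n * v m) ∧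
    (∀ x ∈ M, ∀ n, θ x * u n = u n * θ x ∧ θ x * v n = v n * θ x) ∧
    Set.centralizer (Set.centralizer (θ '' M ∪ Set.range u ∪ Set.range v)) = M

/-- The family `x` of elements of `M` is bounded in norm. -/
def Bd (M : Set (H →L[ℂ] H)) (x : I → (H →L[ℂ] H)) : Prop :=
  (∀ i, x i ∈ M) ∧ ∃ C : ℝ, ∀ i, ‖x i‖ ≤ C

/-- `‖x i - y i‖₂` tends to zero along `F`. -/
def Eqv (ξ : H) (F : Filter I) (x y : I → (H →L[ℂ] H)) : Prop :=
  Tendsto (fun i => ‖(x i - y i) ξ‖) F (𝓝 0)

/-- Bounded central sequences commute asymptotically (for a separable II_1 factor this is equivalent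
to not being McDuff, by a theorem of McDuff). -/
def CentralSequencesCommute (M : Set (H →L[ℂ] H)) (ξ : H) : Prop :=
  ∀ x y : ℕ → (H →L[ℂ] H), Bd M x → Bd M y →
    (∀ a ∈ M, Eqv ξ atTop (fun n => x n * a) (fun n => a * x n) ∧
      Eqv ξ atTop (fun n => y n * a) (fun n => a * y n)) →
    Eqv ξ atTop (fun n => x n * y n) (fun n => y n * x n)

/-- The tracial ultrapowers `M^U` and `N^V` are star isomorphic. Here `M^U` is the algebra of the
bounded families `x : I → M` modulo the relation `Eqv ξ U`, and an isomorphism is given by a map `Φ`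
of bounded families which respects the relations, is injective and surjective on the classes and
respects the operations on the classes. -/
def UltIso (M : Set (H →L[ℂ] H)) (ξ : H) (U : Ultrafilter I)
    (N : Set (K →L[ℂ] K)) (η : K) (V : Ultrafilter J) : Prop :=
  ∃ Φ : (I → (H →L[ℂ] H)) → (J → (K →L[ℂ] K)),
    (∀ x, Bd M x → Bd N (Φ x)) ∧
    (∀ x y, Bd M x → Bd M y → (Eqv ξ U x y ↔ Eqv η V (Φ x) (Φ y))) ∧
    (∀ y, Bd N y → ∃ x, Bd M x ∧ Eqv η V (Φ x) y) ∧
    (∀ x y, Bd M x → Bd M y → Eqv η V (Φ (fun i => x i + y i)) (fun j => Φ x j + Φ y j) ∧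
      Eqv η V (Φ (fun i => x i * y i)) (fun j => Φ x j * Φ y j)) ∧
    (∀ x, Bd M x → Eqv η V (Φ (fun i => star (x i))) (fun j => star (Φ x j)) ∧
      ∀ c : ℂ, Eqv η V (Φ (fun i => c • x i)) (fun j => c • Φ x j))

end General

/-- The Hilbert space of the square summable complex functions on a set. -/
abbrev ell2 (X : Type) : Type := lp (fun _ : X => ℂ) 2

open Classical in
/-- The basis vector of a point. -/
noncomputable def bas {X : Type} (x : X) : ell2 X := lp.single 2 x (1 : ℂ)

/-- The matrix entry of an operator at the row `g` and the column `h`. -/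
noncomputable def ent {X : Type} (x : ell2 X →L[ℂ] ell2 X) (g h : X) : ℂ := x (bas h) g

/-- The von Neumann algebra of the group `G` on `ℓ²(G)`: the operators which commute with the right
translations, that is, whose matrix entries satisfy `x (g k, h k) = x (g, h)`. -/
def LG (G : Type) [Group G] : Set (ell2 G →L[ℂ] ell2 G) :=
  {x | ∀ g h k : G, ent x (g * k) (h * k) = ent x g h}

/-- The permutation of `ℕ` attached to a letter: the letters `0` and `1` act trivially, the letter
`n + 2` exchanges `n` and `n + 1`. -/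
def letterPerm : ℕ → Equiv.Perm ℕ
  | 0 => 1
  | 1 => 1
  | (n + 2) => Equiv.swap n (n + 1)

/-- The action of the free group on `ℕ`. -/
noncomputable def piB : FreeGroup ℕ →* Equiv.Perm ℕ := FreeGroup.lift letterPerm

/-- Permutations of `ℕ` act on the group of the finitely supported integer sequences. -/
noncomputable def permAct : Equiv.Perm ℕ →* MulAut (Multiplicative (ℕ →₀ ℤ)) where
  toFun σ := AddEquiv.toMultiplicative (Finsupp.domCongr σ)
  map_one' := by
    ext x i
    rfl
  map_mul' := by
    intro σ τ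
    ext x i
    rfl

/-- The action of the free group on the finitely supported integer sequences. -/
noncomputable def phiB : FreeGroup ℕ →* MulAut (Multiplicative (ℕ →₀ ℤ)) := permAct.comp piB

/-- The group `G_β = (⊕_ℕ ℤ) ⋊ F_∞`: the letters `0`, `1` of the free group act trivially, the letter
`n + 2` exchanges the coordinates `n` and `n + 1`. -/
abbrev GB : Type := Multiplicative (ℕ →₀ ℤ) ⋊[phiB] FreeGroup ℕ

/-- The letters of the second group: pairs of a level and a finitely supported integer sequence. -/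
abbrev Om : Type := ℕ × (ℕ →₀ ℤ)

/-- The truncation of a finitely supported sequence to the coordinates `≤ n`. -/
noncomputable def tr (n : ℕ) : (ℕ →₀ ℤ) →+ (ℕ →₀ ℤ) := Finsupp.filterAddHom (fun i => i ≤ n)

/-- The sequence `u` shifts the letters of level `n` by its coordinates `≤ n`. -/
noncomputable def shiftC (u : ℕ →₀ ℤ) : Equiv.Perm Om where
  toFun ω := (ω.1, ω.2 + tr ω.1 u)
  invFun ω := (ω.1, ω.2 - tr ω.1 u)
  left_inv ω := by simp
  right_inv ω := by simp

theorem shiftC_apply (u : ℕ →₀ ℤ) (ω : Om) : shiftC u ω = (ω.1, ω.2 + tr ω.1 u) := rfl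

theorem shiftC_zero : shiftC 0 = 1 := by
  ext ω : 1
  simp [shiftC_apply]

theorem shiftC_add (u v : ℕ →₀ ℤ) : shiftC (u + v) = shiftC u * shiftC v := by
  ext ω : 1
  rw [Equiv.Perm.mul_apply, shiftC_apply, shiftC_apply, shiftC_apply, map_add]
  simp [add_assoc, add_comm (tr ω.1 v)]

/-- The action on the free group. -/
noncomputable def psiC : Multiplicative (ℕ →₀ ℤ) →* MulAut (FreeGroup Om) where
  toFun u := FreeGroup.freeGroupCongr (shiftC (Multiplicative.toAdd u))
  map_one' := by
    ext x
    change FreeGroup.map (shiftC 0) x = x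
    rw [shiftC_zero]
    exact FreeGroup.map.id x
  map_mul' := by
    intro u v
    ext x
    change FreeGroup.map (shiftC (Multiplicative.toAdd u + Multiplicative.toAdd v)) x =
      FreeGroup.map (shiftC (Multiplicative.toAdd u)) (FreeGroup.map (shiftC (Multiplicative.toAdd v)) x)
    rw [shiftC_add, FreeGroup.map.comp]
    rfl

/-- The group `G_γ = F ⋊ (⊕_ℕ ℤ)`, `F` the free group on the letters `(n, x)`, where a sequence shifts
the letters of level `n` by its coordinates `≤ n`. -/
abbrev GC : Type := FreeGroup Om ⋊[psiC] Multiplicative (ℕ →₀ ℤ)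

end MPc72427
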