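import Pool.Agent.Work.MP_c72427_an.U.Grp
import Pool.Agent.Work.MP_c72427_an.S.Def

set_option autoImplicit false

/-!
Transfer of the properties of `grpTr G` to the definitions of `S/Def.lean`.
-/

namespace MPc72427

open Filter Topology
open scoped InnerProductSpace

universe u v

variable {G : Type} [Group G]

theorem bas_eq_e (x : G) : (bas x : L2 G) = e x := rfl

theorem mem_LG {x : L2 G →L[ℂ] L2 G} : x ∈ LG G ↔ x ∈ (grpVN G).toStarSubalgebra := by
  rw [mem_grpVN]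
  constructor
  · intro h g
    refine ext_e fun k => ?_
    rw [mul_app, mul_app, rhoOp_e]
    ext a
    rw [rhoOp_apply]
    have := h a (k * g⁻¹) g
    rw [inv_mul_cancel_right] at this
    exact this
  · intro h g k a
    have h1 := congrArg (fun T : L2 G →L[ℂ] L2 G => T (e (k * a)) g) (h a)
    simp only [mul_app] at h1
    rw [rhoOp_apply, rhoOp_e, mul_inv_cancel_right] at h1
    exact h1

theorem LG_eq : LG G = ((grpVN G).toStarSubalgebra : Set (L2 G →L[ℂ] L2 G)) := by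
  ext x
  exact mem_LG

/-- An element of the von Neumann algebra of the group. -/
def mkEl (x : L2 G →L[ℂ] L2 G) (h : x ∈ LG G) : (grpTr G).El := ⟨x, mem_LG.1 h⟩

theorem isII1Factor_LG (h : (grpTr G).IsII1Factor) : IsII1Factor (LG G) (bas (1 : G)) := by
  refine ⟨⟨fun x hx => ?_, ?_⟩, ⟨?_, fun x hx y hy => ?_, fun x hx h0 => ?_⟩, fun z hz hc => ?_, ?_⟩
  · rw [mem_LG] at hx ⊢
    exact star_mem hx
  · rw [LG_eq]
    exact (grpVN G).centralizer_centralizer'
  · exact norm_e (1 : G)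
  · exact (grpTr G).trace_mul_comm (mkEl x hx) (mkEl y hy)
  · exact eq_of_apply_one (mem_LG.1 hx) (zero_mem _) (by
      change x (e 1) = 0
      exact h0)
  · obtain ⟨c, hc'⟩ := h.1 (mkEl z hz) (fun x => by
      have := hc x (mem_LG.2 x.2)
      exact Subtype.ext this)
    exact ⟨c, congrArg Subtype.val hc'⟩
  · rintro ⟨F, hF, hsub⟩
    refine h.2 ?_
    haveI : FiniteDimensional ℂ (Submodule.span ℂ F) := FiniteDimensional.span_of_finite ℂ hF
    let f : (grpTr G).El →ₗ[ℂ] Submodule.span ℂ F :=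
      { toFun := fun x => ⟨x.1, hsub (mem_LG.2 x.2)⟩
        map_add' := fun x y => rfl
        map_smul' := fun c x => rfl }
    refine FiniteDimensional.of_injective f fun x y hxy => ?_
    have := congrArg Subtype.val hxy
    exact Subtype.ext this

theorem hasGamma_LG (h : (grpTr G).HasGamma) : HasGamma (LG G) (bas (1 : G)) := by
  intro F hF hfin ε hε
  have hfin' : ((fun x : (grpTr G).El => (x : L2 G →L[ℂ] L2 G)) ⁻¹' F).Finite :=
    hfin.preimage (Subtype.val_injective.injOn)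
  obtain ⟨w, h1, h2, h3, h4⟩ := h _ hfin' ε hε
  refine ⟨w.1, mem_LG.2 w.2, congrArg Subtype.val h1, congrArg Subtype.val h2, h3, fun x hx => ?_⟩
  have h5 := h4 (mkEl x (hF hx)) hx
  rw [norm2_eq] at h5
  exact h5

theorem csc_LG (h : (grpTr G).CentralSequencesCommute) :
    CentralSequencesCommute (LG G) (bas (1 : G)) := by
  rintro x y ⟨hx, C, hC⟩ ⟨hy, D, hD⟩ hc
  have h1 := h (fun n => mkEl (x n) (hx n)) (fun n => mkEl (y n) (hy n))
    ⟨max C D, fun n => ⟨(hC n).trans (le_max_left _ _), (hD n).trans (le_max_right _ _)⟩⟩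
    (fun a => ?_) (fun a => ?_)
  · refine h1.congr fun n => ?_
    rw [norm2_eq]
    rfl
  · refine ((hc a.1 (mem_LG.2 a.2)).1).congr fun n => ?_
    rw [norm2_eq]
    rfl
  · refine ((hc a.1 (mem_LG.2 a.2)).2).congr fun n => ?_
    rw [norm2_eq]
    rfl

theorem not_isMcDuff_LG (h : ¬ (grpTr G).IsMcDuff) : ¬ IsMcDuff (LG G) := by
  rintro ⟨θ, u, v, ⟨hone, hθ⟩, huv, hcomm, hcom2, hgen⟩
  refine h ?_
  have hm : ∀ x : (grpTr G).El, (x : L2 G →L[ℂ] L2 G) ∈ LG G := fun x => mem_LG.2 x.2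
  let f : (grpTr G).El →⋆ₐ[ℂ] (grpTr G).El :=
    { toFun := fun x => mkEl (θ x.1) (hθ x.1 (hm x)).1
      map_one' := Subtype.ext hone
      map_mul' := fun x y => Subtype.ext ((hθ x.1 (hm x)).2.2.2 y.1 (hm y)).2.1
      map_zero' := by
        refine Subtype.ext ?_
        have h0 := (hθ 0 (by simpa using hm 0)).2.2.1 0
        rw [zero_smul, zero_smul] at h0
        exact h0
      map_add' := fun x y => Subtype.ext ((hθ x.1 (hm x)).2.2.2 y.1 (hm y)).1
      commutes' := fun c => by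
        refine Subtype.ext ?_
        have h0 := (hθ 1 (hm 1)).2.2.1 c
        rw [hone] at h0
        have e1 : ((algebraMap ℂ (grpTr G).El c : (grpTr G).El) : L2 G →L[ℂ] L2 G) =
            c • (1 : L2 G →L[ℂ] L2 G) := by
          rw [Algebra.algebraMap_eq_smul_one]
          rfl
        change θ ((algebraMap ℂ (grpTr G).El c : (grpTr G).El) : L2 G →L[ℂ] L2 G) =
          ((algebraMap ℂ (grpTr G).El c : (grpTr G).El) : L2 G →L[ℂ] L2 G)
        rw [e1, h0]
      map_star' := fun x => Subtype.ext (hθ x.1 (hm x)).2.1 }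
  have hf : Function.Injective f := by
    intro x y hxy
    have h1 : θ x.1 = θ y.1 := congrArg Subtype.val hxy
    exact Subtype.ext (((hθ x.1 (hm x)).2.2.2 y.1 (hm y)).2.2 h1)
  refine ⟨f.range, fun n => mkEl (u n) (huv n).1, fun n => mkEl (v n) (huv n).2.1,
    ⟨StarAlgEquiv.ofInjective f hf⟩, fun n => ?_, fun m n hmn => ?_, ?_, ?_⟩
  · obtain ⟨-, -, h1, h2, h3, h4, h5⟩ := huv n
    exact ⟨Subtype.ext h1, Subtype.ext h2, Subtype.ext h3, Subtype.ext h4, Subtype.ext h5⟩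
  · obtain ⟨h1, h2, h3⟩ := hcomm m n hmn
    exact ⟨Subtype.ext h1, Subtype.ext h2, Subtype.ext h3⟩
  · rintro _ ⟨x, rfl⟩ n
    obtain ⟨h1, h2⟩ := hcom2 x.1 (hm x) n
    exact ⟨Subtype.ext h1, Subtype.ext h2⟩
  · have e1 : {y : L2 G →L[ℂ] L2 G |
      (∃ a ∈ f.range, y = (a : (grpTr G).El)) ∨ (∃ n, y = (mkEl (u n) (huv n).1 : (grpTr G).El)) ∨
        (∃ n, y = (mkEl (v n) (huv n).2.1 : (grpTr G).El))} =
        θ '' LG G ∪ Set.range u ∪ Set.range v := by
      ext y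
      constructor
      · rintro (⟨_, ⟨x, rfl⟩, rfl⟩ | ⟨n, rfl⟩ | ⟨n, rfl⟩)
        · exact Or.inl (Or.inl ⟨x.1, hm x, rfl⟩)
        · exact Or.inl (Or.inr ⟨n, rfl⟩)
        · exact Or.inr ⟨n, rfl⟩
      · rintro ((⟨x, hx, rfl⟩ | ⟨n, rfl⟩) | ⟨n, rfl⟩)
        · exact Or.inl ⟨f (mkEl x hx), ⟨mkEl x hx, rfl⟩, rfl⟩
        · exact Or.inr (Or.inl ⟨n, rfl⟩)
        · exact Or.inr (Or.inr ⟨n, rfl⟩)
    rw [e1, hgen, LG_eq]
    rfl

section Iso

variable {G' : Type} [Group G'] {I : Type u} {J : Type v}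

theorem bd_coe (x : (grpTr G).bdd I) : Bd (LG G) (fun i => ((x.1 i : (grpTr G).El) : L2 G →L[ℂ] L2 G)) :=
  ⟨fun i => mem_LG.2 (x.1 i).2, x.2⟩

/-- A bounded family of operators as an element of the algebra of the bounded families. -/
def mkBdd (x : I → (L2 G →L[ℂ] L2 G)) (h : Bd (LG G) x) : (grpTr G).bdd I :=
  ⟨fun i => mkEl (x i) (h.1 i), h.2⟩

theorem eqv_iff (F : Ultrafilter I) (x y : (grpTr G).bdd I) :
    Eqv (bas (1 : G)) F (fun i => ((x.1 i : (grpTr G).El) : L2 G →L[ℂ] L2 G))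
      (fun i => ((y.1 i : (grpTr G).El) : L2 G →L[ℂ] L2 G)) ↔
      (grpTr G).cls F x = (grpTr G).cls F y := by
  rw [TracialVNA.cls_eq_cls]
  refine tendsto_congr fun i => ?_
  rw [norm2_eq]
  rfl

theorem nonempty_iso_of_ultIso {U : Ultrafilter I} {V : Ultrafilter J}
    (h : UltIso (LG G) (bas (1 : G)) U (LG G') (bas (1 : G')) V) :
    Nonempty ((grpTr G).Ult U ≃⋆ₐ[ℂ] (grpTr G').Ult V) := by
  obtain ⟨Φ, h1, h2, h3, h4, h5⟩ := h
  let c : (grpTr G).bdd I → (I → (L2 G →L[ℂ] L2 G)) := fun x i => ((x.1 i : (grpTr G).El) :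
    L2 G →L[ℂ] L2 G)
  have hc : ∀ x, Bd (LG G) (c x) := fun x => bd_coe x
  let φ : (grpTr G).bdd I → (grpTr G').bdd J := fun x => mkBdd (Φ (c x)) (h1 _ (hc x))
  have key : ∀ x y, (grpTr G).cls U x = (grpTr G).cls U y ↔
      (grpTr G').cls V (φ x) = (grpTr G').cls V (φ y) := by
    intro x y
    rw [← eqv_iff, ← eqv_iff]
    exact h2 (c x) (c y) (hc x) (hc y)
  let ψ : (grpTr G).Ult U → (grpTr G').Ult V := fun X =>
    Quotient.liftOn X (fun x => (grpTr G').cls V (φ x)) (by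
      intro x y hxy
      exact (key x y).1 ((TracialVNA.cls_eq_cls _ _).2 hxy))
  have hψ : ∀ x, ψ ((grpTr G).cls U x) = (grpTr G').cls V (φ x) := fun x => rfl
  have hbij : Function.Bijective ψ := by
    constructor
    · intro X Y hXY
      obtain ⟨x, rfl⟩ := (grpTr G).cls_surjective U X
      obtain ⟨y, rfl⟩ := (grpTr G).cls_surjective U Y
      rw [hψ, hψ] at hXY
      exact (key x y).2 hXY
    · intro Y
      obtain ⟨y, rfl⟩ := (grpTr G').cls_surjective V Y
      obtain ⟨x, hx, hxy⟩ := h3 _ (bd_coe y)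
      refine ⟨(grpTr G).cls U (mkBdd x hx), ?_⟩
      rw [hψ, ← eqv_iff]
      exact hxy
  refine ⟨{ Equiv.ofBijective ψ hbij with
    map_mul' := ?_
    map_add' := ?_
    map_star' := ?_
    map_smul' := ?_ }⟩
  · intro X Y
    obtain ⟨x, rfl⟩ := (grpTr G).cls_surjective U X
    obtain ⟨y, rfl⟩ := (grpTr G).cls_surjective U Y
    change ψ ((grpTr G).cls U (x * y)) = ψ ((grpTr G).cls U x) * ψ ((grpTr G).cls U y)
    rw [hψ, hψ, hψ, ← TracialVNA.cls_mul, ← eqv_iff]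
    exact (h4 (c x) (c y) (hc x) (hc y)).2
  · intro X Y
    obtain ⟨x, rfl⟩ := (grpTr G).cls_surjective U X
    obtain ⟨y, rfl⟩ := (grpTr G).cls_surjective U Y
    change ψ ((grpTr G).cls U (x + y)) = ψ ((grpTr G).cls U x) + ψ ((grpTr G).cls U y)
    rw [hψ, hψ, hψ, ← TracialVNA.cls_add, ← eqv_iff]
    exact (h4 (c x) (c y) (hc x) (hc y)).1
  · intro X
    obtain ⟨x, rfl⟩ := (grpTr G).cls_surjective U X
    change ψ (star ((grpTr G).cls U x)) = star (ψ ((grpTr G).cls U x))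
    rw [hψ, ← TracialVNA.cls_star, ← TracialVNA.cls_star, hψ, ← eqv_iff]
    exact (h5 (c x) (hc x)).1
  · intro r X
    obtain ⟨x, rfl⟩ := (grpTr G).cls_surjective U X
    change ψ (r • ((grpTr G).cls U x)) = r • (ψ ((grpTr G).cls U x))
    rw [hψ, ← TracialVNA.cls_smul, ← TracialVNA.cls_smul, hψ, ← eqv_iff]
    exact (h5 (c x) (hc x)).2 r

end Iso

end MPc72427
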